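import Pool.Agent.N115.JS.Stm
import Pool.Agent.N438.AN.StrongOf

/-!
Project JS (helper115), part JS/3: varieties are strongly of general type if the general
specializations of a generically finite cover which map finitely many elements of `L` to `E` are
covers of bounded degree of varieties of general type only (helper835, after helper438).
-/

set_option autoImplicit false
set_option linter.overlappingInstances false
set_option linter.unusedSectionVars false

open IntermediateField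
open Pool.Agent.W602.GT (GeneralType val lin coords IsForm essFinite)
open Pool.Agent.TH466.QG
open Pool.Agent.N438.AN (coords_top coords_div)

namespace Pool.Agent.N835.JS

/-- **JS/3.** -/
theorem strong_of_l (hR : Pool.Agent.N115.JS.SpreadRange) : Pool.Agent.N115.JS.StrongOfL := by
  intro k K' L _ _ _ _ _ _ _ _ _ _ r n hr y i0 hi0 halg0 hopen M x hx hgen
  classical
  obtain ⟨i1, hi1'⟩ := Function.ne_iff.1 hx
  have hi1 : x i1 ≠ 0 := hi1'
  obtain ⟨Θ, Λ, hΘ, hΛ, hopen⟩ := hopen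
  let y0 : Fin (n + 1) → coords k y := fun i =>
    ⟨y i / y i0, IntermediateField.subset_adjoin k _ ⟨i, i0, hi0, rfl⟩⟩
  have hy0 : ∀ i, (y0 i : K') = y i / y i0 := fun i => rfl
  have hi00 : y0 i0 ≠ 0 := by
    intro h
    have h2 := hy0 i0
    rw [h] at h2
    exact div_ne_zero hi0 hi0 h2.symm
  obtain ⟨Θ2, hΘ2, halgs⟩ := alg_spec (K := coords k y) (K' := K') (coords_top y hi0 y0 hy0) hi00
    (fun m => algebraMap L K' (x m / x i1))
  obtain ⟨Θ3, hΘ3, hrange⟩ := hR k L K' M x i1 hi1 hgen Λ hΛ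
  obtain ⟨H, hH, hspread⟩ := spread (K' := K') (adjoin_norm hgen hi1)
    (Θ := (Θ ∪ Θ3) ∪ (algebraMap (coords k y) K' '' Θ2 ∪ (Set.range y ∪ {(y i0)⁻¹})))
    ((hΘ.union hΘ3).union
      ((hΘ2.image _).union ((Set.finite_range y).union (Set.finite_singleton _))))
  refine ⟨MvPolynomial.X i1 * hz i1 H, ?_, ?_, ?_⟩
  · obtain ⟨d, hd⟩ := hz_form i1 H
    exact ⟨1 + d, (MvPolynomial.isHomogeneous_X k i1).mul hd⟩
  · change MvPolynomial.aeval x _ ≠ 0
    rw [map_mul, MvPolynomial.aeval_X]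
    refine mul_ne_zero hi1 ?_
    change val x _ ≠ 0
    rw [val_hz H hi1]
    exact mul_ne_zero (pow_ne_zero _ hi1) hH
  intro E _ _ w' z hz hzR hw1 htr
  change MvPolynomial.aeval z _ ≠ 0 at hzR
  rw [map_mul, MvPolynomial.aeval_X] at hzR
  have hz1 : z i1 ≠ 0 := left_ne_zero_of_mul hzR
  have hzH : MvPolynomial.aeval (fun i => z i / z i1) H ≠ 0 := by
    have h1 : val z (Pool.Agent.TH466.QG.hz i1 H) ≠ 0 := right_ne_zero_of_mul hzR
    rw [val_hz H hz1] at h1
    exact right_ne_zero_of_mul h1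
  have hsp : ∀ G : MvPolynomial (Fin (M + 1)) k,
      MvPolynomial.aeval (fun i => x i / x i1) G = 0 →
      MvPolynomial.aeval (fun i => z i / z i1) G = 0 := by
    intro G hG
    have h1 : val x (Pool.Agent.TH466.QG.hz i1 G) = 0 := by
      rw [val_hz G hi1, hG, mul_zero]
    have h2 := hz.spec _ (hz_form i1 G) h1
    rw [val_hz G hz1] at h2
    exact (mul_eq_zero.1 h2).resolve_left (pow_ne_zero _ hz1)
  obtain ⟨K'', i1', i2', i3', i4', i5', hrk, S, hSx, hSΘ⟩ := hspread E
    (fun i => z i / z i1) hsp hzH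
  have hSy : ∀ i, ∃ t, S.T (y i) t := fun i =>
    hSΘ _ (Or.inr (Or.inr (Or.inl ⟨i, rfl⟩)))
  choose y' hy' using hSy
  have hSi : ∃ t, S.T (y i0)⁻¹ t := hSΘ _ (Or.inr (Or.inr (Or.inr rfl)))
  have hyi : y' i0 ≠ 0 := S.ne_zero (hy' i0) hSi hi0
  have hSq : ∀ i, S.T (algebraMap (coords k y) K' (y0 i)) (y' i / y' i0) := by
    intro i
    change S.T (y i / y i0) _
    rw [div_eq_mul_inv, div_eq_mul_inv]
    exact S.mul (hy' i) (S.inv (hy' i0) hSi hi0)
  have halg : Algebra.IsAlgebraic (coords k y') K'' := by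
    refine alg_over (adjoin_norm hz.gen hz1) _ fun m => ?_
    have h1 := halgs K'' S (fun ϑ hϑ => hSΘ _ (Or.inr (Or.inl ⟨ϑ, hϑ, rfl⟩)))
      (fun i => y' i / y' i0) hSq (fun m => algebraMap E K'' (z m / z i1)) hSx m
    rwa [coords_div y' hyi] at h1
  have htr' : Algebra.trdeg k K'' = w' := by rw [trdeg_alg (E := E), htr]
  have hess : Algebra.EssFiniteType k E := essFinite hz.gen
  have hess' : Algebra.EssFiniteType k K'' := Algebra.EssFiniteType.comp k E K''
  have hval : ∀ l ∈ Λ, ∃ e : E, S.T (algebraMap L K' l) (algebraMap E K'' e) :=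
    hrange E K'' S (fun i => z i / z i1) hSx fun ϑ hϑ => hSΘ _ (Or.inl (Or.inr hϑ))
  exact hopen K'' S (fun ϑ hϑ => hSΘ _ (Or.inl (Or.inl hϑ))) y' hy' w' hw1 htr' hess' halg E
    (hrk.trans hr) hval fun w hw => dim_le (adjoin_norm hz.gen hz1) hsp hw htr

end Pool.Agent.N835.JS
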